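import Mathlib

set_option autoImplicit false

/-! # Abstract greedy choice -/

namespace Pool.Agent.N893.RK

open Finset

open scoped Classical

/-- For every `p ∈ P` choose `s p < N p`; the choice `s` at `p` removes `i` if `K p s i`. If the proportion of
the `s` which do not remove `i` is at most `w p i`, then at most `∑ ∏ w p i` elements survive a good choice. -/
theorem greedy_abs {ι : Type*} (P : Finset ℕ) (K : ℕ → ℕ → ι → Prop) (N : ℕ → ℕ) (w : ℕ → ι → ℝ)
    (hN : ∀ p ∈ P, 0 < N p) (hw : ∀ p ∈ P, ∀ i, 0 ≤ w p i) :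
    ∀ R : Finset ι,
      (∀ p ∈ P, ∀ i ∈ R, (((range (N p)).filter (fun s => ¬ K p s i)).card : ℝ) ≤ w p i * N p) →
      ∃ s : ℕ → ℕ, (∀ p ∈ P, s p < N p) ∧
      ((R.filter (fun i => ∀ p ∈ P, ¬ K p (s p) i)).card : ℝ) ≤ ∑ i ∈ R, ∏ p ∈ P, w p i := by
  induction P using Finset.induction_on with
  | empty => intro R _; exact ⟨fun _ => 0, by simp, by simp⟩
  | insert p P hpP ih =>
    intro R hR
    have ihP := ih (fun q hq => hN q (mem_insert_of_mem hq)) (fun q hq => hw q (mem_insert_of_mem hq))
    set W : ι → ℝ := fun i => ∏ q ∈ P, w q i with hW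
    have hW0 : ∀ i, 0 ≤ W i := fun i => prod_nonneg fun q hq => hw q (mem_insert_of_mem hq) i
    have hNp := hN p (mem_insert_self _ _)
    have havg : ∃ c ∈ range (N p), ∑ i ∈ R.filter (fun i => ¬ K p c i), W i ≤
        ∑ i ∈ R, ∏ q ∈ insert p P, w q i := by
      by_contra hcon
      push Not at hcon
      have hne : (range (N p)).Nonempty := ⟨0, mem_range.2 hNp⟩
      have h1 := sum_lt_sum_of_nonempty hne hcon
      rw [sum_const, card_range, nsmul_eq_mul] at h1
      have h2 : ∑ c ∈ range (N p), ∑ i ∈ R.filter (fun i => ¬ K p c i), W i =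
          ∑ i ∈ R, W i * ((range (N p)).filter (fun c => ¬ K p c i)).card := by
        simp_rw [sum_filter]
        rw [sum_comm]
        apply sum_congr rfl
        intro i _
        rw [← sum_filter, sum_const, nsmul_eq_mul, mul_comm]
      rw [h2, mul_sum] at h1
      apply lt_irrefl _ (lt_of_lt_of_le h1 _)
      apply sum_le_sum
      intro i hi
      rw [prod_insert hpP]
      have h3 := hR p (mem_insert_self _ _) i hi
      calc W i * (((range (N p)).filter (fun c => ¬ K p c i)).card : ℝ)
          ≤ W i * (w p i * N p) := mul_le_mul_of_nonneg_left h3 (hW0 i)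
        _ = _ := by simp only [hW]; ring
    obtain ⟨c, hc, hle⟩ := havg
    obtain ⟨s, hs1, hs2⟩ := ihP (R.filter (fun i => ¬ K p c i)) (fun q hq i hi =>
      hR q (mem_insert_of_mem hq) i (mem_filter.1 hi).1)
    refine ⟨Function.update s p c, ?_, ?_⟩
    · intro q hq
      rcases mem_insert.1 hq with rfl | hq
      · rw [Function.update_self]; exact mem_range.1 hc
      · have : q ≠ p := fun h => hpP (h ▸ hq)
        rw [Function.update_of_ne this]
        exact hs1 q hq
    · refine le_trans ?_ (hs2.trans hle)
      have h8 : R.filter (fun i => ∀ q ∈ insert p P, ¬ K q (Function.update s p c q) i) ⊆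
          (R.filter (fun i => ¬ K p c i)).filter (fun i => ∀ q ∈ P, ¬ K q (s q) i) := by
        intro i hi
        rw [mem_filter] at hi
        rw [mem_filter, mem_filter]
        refine ⟨⟨hi.1, ?_⟩, ?_⟩
        · have := hi.2 p (mem_insert_self _ _)
          rwa [Function.update_self] at this
        · intro q hq
          have h9 : q ≠ p := fun h => hpP (h ▸ hq)
          have := hi.2 q (mem_insert_of_mem hq)
          rwa [Function.update_of_ne h9] at this
      exact_mod_cast card_le_card h8

end Pool.Agent.N893.RK
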