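import Mathlib
import Pool.Agent.H398R2.RK.Surv

set_option autoImplicit false
set_option maxHeartbeats 4000000

/-! # The parameters of Rankin's choice, with a free exponent -/

namespace Pool.Agent.N893.RK

open Finset Filter Pool.Agent.H318R2.Cr Pool.Agent.H398R2.RK

open scoped Classical

/-- all prime factors `p` of `m` satisfy `log p ≤ log y log₃ y / (K log₂ y)` -/
def Smo (K : ℝ) (y : ℝ) (m : ℕ) : Prop := ∀ p : ℕ, p.Prime → p ∣ m →
  Real.log p ≤ Real.log y * Real.log (Real.log (Real.log y)) / (K * Real.log (Real.log y))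

theorem ev_exp (B : ℕ) (C : ℝ) (hC : 0 < C) : ∃ t₀ : ℝ, ∀ t : ℝ, t₀ ≤ t → 1 ≤ t ∧ 1 ≤ Real.log t ∧
    Real.log t ≤ t ∧ (B + 5 : ℝ) * 20 * (B + 5) * t ^ 2 ≤ Real.exp t ∧ 100 ≤ Real.exp t ∧
    Real.log C + 2 * Real.sqrt t * Real.log t + 20 * (B + 5) * C * t * Real.sqrt t / Real.exp t ≤ t := by
  have h1 := ev_six (C * (B + 5)) (by positivity)
  have h2 : ∀ᶠ t : ℝ in atTop, (6 * ((B + 5 : ℝ) * 20 * (B + 5)) + 400) ≤ t := eventually_ge_atTop _
  have h := (((eventually_ge_atTop (1 : ℝ)).and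
    (Real.tendsto_log_atTop.eventually_ge_atTop 1)).and h1).and h2
  obtain ⟨t₀, ht⟩ := eventually_atTop.1 h
  refine ⟨t₀, fun t h0 => ?_⟩
  obtain ⟨⟨⟨g1, g2⟩, g3⟩, g4⟩ := ht t h0
  have hB : (0 : ℝ) ≤ B := Nat.cast_nonneg _
  have h6 : t ^ 3 / 6 ≤ Real.exp t := by
    have h7 := Real.pow_div_factorial_le_exp t (by linarith) 3
    norm_num [Nat.factorial] at h7
    linarith
  have h8 : Real.log t ≤ t - 1 := Real.log_le_sub_one_of_pos (by linarith)
  have hK : 0 ≤ (B + 5 : ℝ) * 20 * (B + 5) := by positivity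
  have h9 : 6 * ((B + 5 : ℝ) * 20 * (B + 5)) ≤ t := by linarith
  refine ⟨g1, g2, by linarith, ?_, ?_, ?_⟩
  · refine le_trans ?_ h6
    have : 0 ≤ t ^ 2 := by positivity
    nlinarith
  · refine le_trans ?_ h6
    have h10 : (400 : ℝ) ≤ t := by linarith
    nlinarith [sq_nonneg t]
  · have h10 : Real.log C ≤ Real.log (C * (B + 5)) := Real.log_le_log hC (by nlinarith)
    have h11 : 20 * (B + 5) * C * t * Real.sqrt t / Real.exp t =
      20 * (C * (B + 5)) * t * Real.sqrt t / Real.exp t := by ring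
    rw [h11]
    linarith

/-- smooth numbers: `#{m ≤ L : m is v-smooth} ≤ L / (log y)^B`, `log v = log y log₃ y/(2 (B + 2) log₂ y)` -/
theorem smooth_count_B (B : ℕ) : ∃ y₀ : ℝ, ∀ y : ℝ, y₀ ≤ y → ∀ L : ℕ, y ≤ L →
    (((Finset.Icc 1 L).filter (Smo (2 * (B + 2)) y)).card : ℝ) ≤ L / (Real.log y) ^ B := by
  obtain ⟨C, hC, hcore⟩ := smooth_core
  obtain ⟨t₀, hev⟩ := ev_exp B C hC
  refine ⟨Real.exp (Real.exp t₀), fun y hy L hyL => ?_⟩
  have hy0 : 0 < y := (Real.exp_pos _).trans_le hy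
  have hL1' : Real.exp t₀ ≤ Real.log y := by
    rw [← Real.log_exp (Real.exp t₀)]; exact Real.log_le_log (Real.exp_pos _) hy
  have hly : 0 < Real.log y := (Real.exp_pos _).trans_le hL1'
  set t := Real.log (Real.log y) with ht
  have htt : t₀ ≤ t := by
    rw [← Real.log_exp t₀]; exact Real.log_le_log (Real.exp_pos _) hL1'
  obtain ⟨h1, h2, h2', h3, h3', h4⟩ := hev t htt
  have hLe : Real.log y = Real.exp t := by rw [ht, Real.exp_log hly]
  have hB : (0 : ℝ) ≤ B := Nat.cast_nonneg _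
  have hSmo : Smo (2 * (B + 2)) y = fun m => ∀ p : ℕ, p.Prime → p ∣ m →
      Real.log p ≤ Real.log y * Real.log t / (2 * (B + 2) * t) := rfl
  set V0 := Real.log y * Real.log t / (2 * (B + 2) * t) with hV0
  have ht0 : 0 < t := by linarith
  have hV1 : 1 ≤ V0 := by
    rw [hV0, le_div_iff₀ (by positivity), hLe]
    have e1 : 1 * (2 * (B + 2) * t) ≤ Real.exp t := by
      refine le_trans ?_ h3
      have e2 : t ≤ t ^ 2 := by nlinarith
      have e3 : 2 * (B + 2) ≤ (B + 5 : ℝ) * 20 * (B + 5) := by nlinarith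
      calc 1 * (2 * (B + 2) * t) = (2 * (B + 2)) * t := by ring
        _ ≤ ((B + 5 : ℝ) * 20 * (B + 5)) * t ^ 2 := mul_le_mul e3 e2 (by linarith) (by positivity)
    nlinarith [Real.exp_pos t]
  set v : ℕ := ⌊Real.exp V0⌋₊ with hv
  have hv2 : 2 ≤ v := by
    rw [hv, Nat.le_floor_iff (Real.exp_pos _).le]
    have := Real.add_one_le_exp V0
    push_cast; linarith
  have hvle : (v : ℝ) ≤ Real.exp V0 := Nat.floor_le (Real.exp_pos _).le
  have hv0 : (0 : ℝ) < v := by exact_mod_cast (by omega : 0 < v)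
  have hlv : Real.log v ≤ V0 := by
    rw [← Real.log_exp V0]; exact Real.log_le_log hv0 hvle
  have hlv0 : 0 ≤ Real.log v := Real.log_nonneg (by exact_mod_cast (by omega : 1 ≤ v))
  set η : ℝ := (B + 2) * t / Real.log y with hη
  have hη0 : 0 ≤ η := by positivity
  have hη1 : η ≤ 1 / 4 := by
    rw [hη, div_le_iff₀ hly, hLe]
    have : t ≤ t ^ 2 := by nlinarith
    nlinarith
  have hc := hcore η v L hη0 hη1 hv2
  have hsub : (Finset.Icc 1 L).filter (Smo (2 * (B + 2)) y) ⊆
      (Icc 1 L).filter (fun n => ∀ p : ℕ, p.Prime → p ∣ n → p ≤ v) := by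
    intro m hm
    rw [mem_filter] at hm ⊢
    refine ⟨hm.1, fun p hp hd => ?_⟩
    rw [hv, Nat.le_floor_iff (Real.exp_pos _).le]
    have hp0 : (0 : ℝ) < p := by exact_mod_cast hp.pos
    rw [← Real.log_le_iff_le_exp hp0]
    exact hm.2 p hp hd
  refine (Nat.cast_le.2 (card_le_card hsub)).trans (hc.trans ?_)
  have hL0 : (0 : ℝ) < L := hy0.trans_le hyL
  have k1 : (L : ℝ) ^ (1 - η) ≤ L * Real.exp (-((B + 2) * t)) := by
    rw [Real.rpow_sub hL0, Real.rpow_one, div_eq_mul_inv]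
    apply mul_le_mul_of_nonneg_left _ hL0.le
    rw [Real.exp_neg]
    apply inv_anti₀ (Real.exp_pos _)
    have : Real.exp ((B + 2) * t) = y ^ η := by
      rw [Real.rpow_def_of_pos hy0, hη]; congr 1; field_simp
    rw [this]
    exact Real.rpow_le_rpow hy0.le hyL hη0
  have k2 : (v : ℝ) ^ η ≤ Real.sqrt t := by
    have e1 : Real.sqrt t = Real.exp (Real.log t / 2) := by
      rw [Real.sqrt_eq_rpow, Real.rpow_def_of_pos ht0]; ring_nf
    rw [e1]
    calc (v : ℝ) ^ η ≤ (Real.exp V0) ^ η := Real.rpow_le_rpow hv0.le hvle hη0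
      _ = Real.exp (V0 * η) := by rw [← Real.exp_mul]
      _ = _ := by
        congr 1
        rw [hV0, hη]
        have : (B : ℝ) + 2 ≠ 0 := by positivity
        field_simp
  have hlt0 : 0 ≤ Real.log t := by linarith
  have k3 : 4 * η * (v : ℝ) ^ η * (Real.log v + C) ≤
      2 * Real.sqrt t * Real.log t + 20 * (B + 5) * C * t * Real.sqrt t / Real.exp t := by
    calc 4 * η * (v : ℝ) ^ η * (Real.log v + C) ≤ 4 * η * Real.sqrt t * (V0 + C) := by gcongr
      _ = 2 * Real.sqrt t * Real.log t + 4 * (B + 2) * C * t * Real.sqrt t / Real.exp t := by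
        rw [hV0, hη, hLe]
        have := Real.exp_pos t
        have : (B : ℝ) + 2 ≠ 0 := by positivity
        field_simp
        ring
      _ ≤ _ := by
        have : 4 * (B + 2 : ℝ) * C * t * Real.sqrt t ≤ 20 * (B + 5) * C * t * Real.sqrt t := by
          have : 4 * (B + 2 : ℝ) ≤ 20 * (B + 5) := by linarith
          gcongr
        gcongr
  have k4 : C * Real.log v ≤ C * Real.exp t := by
    gcongr
    refine hlv.trans ?_
    rw [hV0, hLe, div_le_iff₀ (by positivity)]
    have : Real.log t ≤ 2 * (B + 2) * t := by nlinarith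
    nlinarith [Real.exp_pos t]
  have k5 : C * Real.exp (2 * Real.sqrt t * Real.log t + 20 * (B + 5) * C * t * Real.sqrt t / Real.exp t) ≤
      Real.exp t := by
    calc C * Real.exp (2 * Real.sqrt t * Real.log t + 20 * (B + 5) * C * t * Real.sqrt t / Real.exp t)
        = Real.exp (Real.log C + (2 * Real.sqrt t * Real.log t +
            20 * (B + 5) * C * t * Real.sqrt t / Real.exp t)) := by
          rw [Real.exp_add (Real.log C), Real.exp_log hC]
      _ ≤ _ := by
          apply Real.exp_le_exp.2; linarith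
  calc (L : ℝ) ^ (1 - η) * (C * Real.log v * Real.exp (4 * η * (v : ℝ) ^ η * (Real.log v + C)))
      ≤ (L * Real.exp (-((B + 2) * t))) * (C * Real.exp t *
        Real.exp (2 * Real.sqrt t * Real.log t + 20 * (B + 5) * C * t * Real.sqrt t / Real.exp t)) := by gcongr
    _ = (L * Real.exp (-((B + 2) * t))) * Real.exp t * (C *
        Real.exp (2 * Real.sqrt t * Real.log t + 20 * (B + 5) * C * t * Real.sqrt t / Real.exp t)) := by ring
    _ ≤ (L * Real.exp (-((B + 2) * t))) * Real.exp t * Real.exp t := by gcongr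
    _ = L / (Real.log y) ^ B := by
        rw [hLe, ← Real.exp_nat_mul, mul_assoc, mul_assoc, ← Real.exp_add, ← Real.exp_add,
          div_eq_mul_inv, ← Real.exp_neg]
        congr 2
        ring

/-- Rankin's parameters: a set `S` of primes between `(log y)^B` and `y` with a large sum of reciprocals,
such that an `m ≤ y (log y)^B / 1` whose prime factors are `> y` or in `S` is prime or smooth. -/
theorem rankin (B : ℕ) (hB1 : 1 ≤ B) : ∃ C : ℝ, 0 < C ∧ ∃ y₀ : ℝ, 2 ≤ y₀ ∧ ∀ y : ℝ, y₀ ≤ y →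
    ∃ S : Finset ℕ, (∀ p ∈ S, p.Prime ∧ (Real.log y) ^ B < (p : ℝ) ∧ (p : ℝ) ≤ y) ∧
      ∏ p ∈ S, (1 - 1 / (p : ℝ)) ≤ C * ((Real.log (Real.log y)) ^ 2 /
        (Real.log y * Real.log (Real.log (Real.log y)))) ∧
      (∀ L : ℕ, y ≤ L → (((Finset.Icc 1 L).filter (Smo (2 * (B + 2)) y)).card : ℝ) ≤
        L / (Real.log y) ^ B) ∧
      (∀ m : ℕ, 1 ≤ m → (m : ℝ) ≤ y * (Real.log y) ^ B →
        (∀ p : ℕ, p.Prime → p ∣ m → (y < p ∨ p ∈ S)) → Smo (2 * (B + 2)) y m ∨ m.Prime) := by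
  obtain ⟨c₁, c₂, hc₁, hc₁₂, hV⟩ := cz_bounds
  obtain ⟨y₁, hsm⟩ := smooth_count_B B
  obtain ⟨t₀, hev⟩ := ev_exp B 1 one_pos
  have hc₂ : 0 < c₂ := hc₁.trans_le hc₁₂
  have hBr : (1 : ℝ) ≤ B := by exact_mod_cast hB1
  refine ⟨c₂ / c₁ * (4 * (B * (B + 2))), by positivity, max 2 (max y₁ (Real.exp (Real.exp t₀))),
    le_max_left _ _, fun y hy => ?_⟩
  have hsm' := hsm y ((le_max_left _ _).trans ((le_max_right _ _).trans hy))
  have hy' := (le_max_right _ _).trans ((le_max_right _ _).trans hy)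
  have hy0 : 0 < y := (Real.exp_pos _).trans_le hy'
  have hL1' : Real.exp t₀ ≤ Real.log y := by
    rw [← Real.log_exp (Real.exp t₀)]; exact Real.log_le_log (Real.exp_pos _) hy'
  have hly : 0 < Real.log y := (Real.exp_pos _).trans_le hL1'
  have hSmo : Smo (2 * (B + 2)) y = fun m => ∀ p : ℕ, p.Prime → p ∣ m →
      Real.log p ≤ Real.log y * Real.log (Real.log (Real.log y)) / (2 * (B + 2) * Real.log (Real.log y)) :=
    rfl
  set t := Real.log (Real.log y) with ht
  have htt : t₀ ≤ t := by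
    rw [← Real.log_exp t₀]; exact Real.log_le_log (Real.exp_pos _) hL1'
  obtain ⟨h1, h2, h5, h3, h4, _⟩ := hev t htt
  have hLe : Real.log y = Real.exp t := by rw [ht, Real.exp_log hly]
  have hye : y = Real.exp (Real.exp t) := by rw [← hLe, Real.exp_log hy0]
  set V0 := Real.log y * Real.log t / (2 * (B + 2) * t) with hV0
  have ht0 : 0 < t := by linarith
  have hlt0 : 0 < Real.log t := by linarith
  have h3' : 2 * (B + 2) * (B * t ^ 2) ≤ Real.exp t := by
    refine le_trans ?_ h3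
    have e1 : 2 * (B + 2) * (B * t ^ 2) = (2 * (B + 2) * B) * t ^ 2 := by ring
    rw [e1]
    have e2 : 2 * (B + 2) * (B : ℝ) ≤ (B + 5 : ℝ) * 20 * (B + 5) := by nlinarith
    gcongr
  have hBt : B * t ≤ Real.exp t := by
    refine le_trans ?_ h3'
    have : t ≤ t ^ 2 := by nlinarith
    have e : 0 ≤ (B : ℝ) * t ^ 2 := by positivity
    nlinarith
  -- V0 ≥ B t
  have hV1 : B * t ≤ V0 := by
    rw [hV0, le_div_iff₀ (by positivity), hLe]
    have e : B * t * (2 * (B + 2) * t) = 2 * (B + 2) * (B * t ^ 2) := by ring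
    rw [e]
    nlinarith [Real.exp_pos t]
  have hV1le : V0 ≤ Real.log y := by
    rw [hV0, div_le_iff₀ (by positivity), hLe]
    have : Real.log t ≤ 2 * (B + 2) * t := by nlinarith
    nlinarith [Real.exp_pos t]
  set v₀ : ℝ := (Real.log y) ^ B with hv₀
  have hv₀e : v₀ = Real.exp (B * t) := by
    rw [hv₀, hLe, ← Real.exp_nat_mul]
  have hv₀0 : 0 < v₀ := by positivity
  have hly100 : 100 ≤ Real.log y := by rw [hLe]; exact h4
  have hv₀log : Real.log y ≤ v₀ := by
    calc Real.log y = Real.log y ^ 1 := (pow_one _).symm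
      _ ≤ _ := pow_le_pow_right₀ (by linarith) hB1
  have hv₀big : 100 ≤ v₀ := hly100.trans hv₀log
  have hv₀y : v₀ ≤ y := by
    rw [hv₀e, hye]; exact Real.exp_le_exp.2 hBt
  set u : ℕ := ⌊v₀⌋₊ with hu
  set v : ℕ := ⌊Real.exp V0⌋₊ with hv
  have huv : u ≤ v := by
    rw [hu, hv]; apply Nat.floor_le_floor; rw [hv₀e]; exact Real.exp_le_exp.2 hV1
  have hu2 : 2 ≤ u := by
    rw [hu, Nat.le_floor_iff hv₀0.le]; push_cast; linarith
  have hvle : (v : ℝ) ≤ Real.exp V0 := Nat.floor_le (Real.exp_pos _).le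
  have hule : (u : ℝ) ≤ v₀ := Nat.floor_le hv₀0.le
  have hv0 : (0 : ℝ) < v := by exact_mod_cast (by omega : 0 < v)
  have hu0 : (0 : ℝ) < u := by exact_mod_cast (by omega : 0 < u)
  have hlu : Real.log u ≤ B * t := by
    rw [← Real.log_exp (B * t), ← hv₀e]; exact Real.log_le_log hu0 hule
  have hlu0 : 0 < Real.log u := Real.log_pos (by exact_mod_cast (by omega : 1 < u))
  have hlv0 : 0 < Real.log v := Real.log_pos (by exact_mod_cast (by omega : 1 < v))
  have hlv : V0 / 2 ≤ Real.log v := by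
    have h7 : Real.exp V0 < v + 1 := Nat.lt_floor_add_one _
    have h8 : (2 : ℝ) ≤ v := by exact_mod_cast (by omega : 2 ≤ v)
    have h9 : Real.exp V0 ≤ (v : ℝ) ^ 2 := by nlinarith
    have h10 := Real.log_le_log (Real.exp_pos _) h9
    rw [Real.log_exp, Real.log_pow] at h10
    push_cast at h10; linarith
  set S : Finset ℕ := (Icc 1 v).filter (fun p : ℕ => p.Prime ∧ v₀ < (p : ℝ)) with hS
  have hSv : ∀ p ∈ S, v₀ < (p : ℝ) := fun p hp => (mem_filter.1 hp).2.2
  have hSmem : ∀ p : ℕ, p.Prime → (p ∈ S ↔ v₀ < (p : ℝ) ∧ Real.log p ≤ V0) := by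
    intro p hp
    have hp0 : (0 : ℝ) < p := by exact_mod_cast hp.pos
    rw [hS, mem_filter, mem_Icc, Real.log_le_iff_le_exp hp0, hv, Nat.le_floor_iff (Real.exp_pos _).le]
    constructor
    · rintro ⟨⟨_, h⟩, _, h'⟩; exact ⟨h', h⟩
    · rintro ⟨h, h'⟩; exact ⟨⟨hp.pos, h'⟩, hp, h⟩
  have hSp : ∀ p ∈ S, p.Prime ∧ v₀ < (p : ℝ) ∧ (p : ℝ) ≤ y := by
    intro p hp
    have hpp := (mem_filter.1 hp).2.1
    refine ⟨hpp, hSv p hp, ?_⟩
    have hp0 : (0 : ℝ) < p := by exact_mod_cast hpp.pos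
    have h7 := ((hSmem p hpp).1 hp).2
    rw [← Real.log_le_log_iff hp0 hy0]; linarith
  refine ⟨S, hSp, ?_, hsm', ?_⟩
  · -- the product
    have hPv : V v = V u * ∏ p ∈ S, (1 - 1 / (p : ℝ)) := by
      have h7 : Pz v = Pz u ∪ S := by
        ext p
        rw [mem_union, mem_Pz, mem_Pz, hS, mem_filter, mem_Icc, hu, Nat.le_floor_iff hv₀0.le]
        constructor
        · rintro ⟨hp, hpv⟩
          by_cases h : (p : ℝ) ≤ v₀
          · exact Or.inl ⟨hp, h⟩
          · exact Or.inr ⟨⟨hp.pos, hpv⟩, hp, not_le.1 h⟩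
        · rintro (⟨hp, hpu⟩ | ⟨⟨_, hpv⟩, hp, _⟩)
          · refine ⟨hp, ?_⟩
            have : p ≤ u := by rw [hu, Nat.le_floor_iff hv₀0.le]; exact hpu
            omega
          · exact ⟨hp, hpv⟩
      have h8 : Disjoint (Pz u) S := by
        rw [Finset.disjoint_left]
        intro p hp hpS
        have h9 := (mem_Pz.1 hp).2
        rw [hu, Nat.le_floor_iff hv₀0.le] at h9
        have := hSv p hpS
        linarith
      unfold V
      rw [h7, prod_union h8]
    have h7 := (hV v (by omega)).2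
    have h8 := (hV u hu2).1
    rw [hPv] at h7
    have hVu := V_pos u
    have hSprod0 : 0 ≤ ∏ p ∈ S, (1 - 1 / (p : ℝ)) :=
      prod_nonneg fun p hp => (one_sub_inv_pos (hSp p hp).1).le
    have hV0pos : 0 < V0 := lt_of_lt_of_le (by positivity) hV1
    have h9 : c₁ * (∏ p ∈ S, (1 - 1 / (p : ℝ))) * (V0 / 2) ≤ c₂ * (B * t) := by
      calc c₁ * (∏ p ∈ S, (1 - 1 / (p : ℝ))) * (V0 / 2)
          ≤ (V u * Real.log u) * (∏ p ∈ S, (1 - 1 / (p : ℝ))) * Real.log v := by
            gcongr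
        _ = (V u * (∏ p ∈ S, (1 - 1 / (p : ℝ))) * Real.log v) * Real.log u := by ring
        _ ≤ c₂ * Real.log u := by gcongr
        _ ≤ _ := by gcongr
    have h10 : ∏ p ∈ S, (1 - 1 / (p : ℝ)) ≤ c₂ * (B * t) / (c₁ * (V0 / 2)) := by
      rw [le_div_iff₀ (by positivity)]
      linarith
    refine h10.trans (le_of_eq ?_)
    rw [hV0]
    have : (B : ℝ) + 2 ≠ 0 := by positivity
    have : (B : ℝ) ≠ 0 := by positivity
    field_simp
    try ring
  · intro m hm1 hmL hfac
    by_cases hall : Smo (2 * (B + 2)) y m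
    · exact Or.inl hall
    · right
      rw [hSmo] at hall
      push Not at hall
      obtain ⟨p, hp, hd, hlp⟩ := hall
      have hpy : y < p := by
        rcases hfac p hp hd with h | h
        · exact h
        · exact absurd ((hSmem p hp).1 h).2 (not_le.2 hlp)
      obtain ⟨m', rfl⟩ := hd
      have hm'1 : m' = 1 := by
        by_contra hne
        have hm'0 : m' ≠ 0 := by rintro rfl; simp at hm1
        obtain ⟨q, hq, hqd⟩ := Nat.exists_prime_and_dvd hne
        have hqle : q ≤ m' := Nat.le_of_dvd (Nat.pos_of_ne_zero hm'0) hqd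
        have hm'le : (m' : ℝ) < v₀ := by
          have h7 : (p : ℝ) * m' ≤ y * v₀ := by
            have : ((p * m' : ℕ) : ℝ) = (p : ℝ) * m' := by push_cast; ring
            rw [← this]; exact hmL
          have h8 : (0 : ℝ) < m' := by exact_mod_cast Nat.pos_of_ne_zero hm'0
          have h9 : y * m' < y * v₀ := by
            calc y * m' < p * m' := by gcongr
              _ ≤ y * v₀ := h7
          exact lt_of_mul_lt_mul_left h9 hy0.le
        have hqv : (q : ℝ) < v₀ := lt_of_le_of_lt (by exact_mod_cast hqle) hm'le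
        rcases hfac q hq (hqd.mul_left p) with h | h
        · linarith
        · have := hSv q h; linarith
      rw [hm'1, mul_one]
      exact hp

end Pool.Agent.N893.RK
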