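import Mathlib
import Pool.Agent.H361R2.PA.AsmM
import Pool.Agent.N893.QA.Fin

set_option autoImplicit false
set_option maxHeartbeats 4000000

/-! # General assembly: from survivors of the sieve by the primes up to `y` to composite values -/

namespace Pool.Agent.N893.RK

open Finset Filter Pool.Agent.N893.QA

open scoped Classical

theorem ev_pow (K : ℝ) (e : ℕ) : ∀ᶠ x : ℝ in atTop, K * (Real.log x) ^ e ≤ x := by
  have h := Real.isLittleO_pow_log_id_atTop (n := e)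
  have h1 := h.bound (c := 1 / (|K| + 1)) (by positivity)
  filter_upwards [h1, eventually_ge_atTop 1] with x hx hx1
  have hlx : 0 ≤ Real.log x := Real.log_nonneg hx1
  rw [Real.norm_of_nonneg (by positivity), id, Real.norm_of_nonneg (by linarith)] at hx
  have h2 : 0 ≤ Real.log x ^ e := by positivity
  have h3 : K ≤ |K| + 1 := by have := le_abs_self K; linarith
  calc K * (Real.log x) ^ e ≤ (|K| + 1) * (Real.log x) ^ e := by gcongr
    _ ≤ (|K| + 1) * (1 / (|K| + 1) * x) := by gcongr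
    _ = x := by field_simp

theorem ev_exp_pow (K : ℝ) (e : ℕ) : ∀ᶠ x : ℝ in atTop, K * x ^ e ≤ Real.exp x := by
  have h := (Real.isLittleO_pow_exp_atTop (n := e)).bound (c := 1 / (|K| + 1)) (by positivity)
  filter_upwards [h, eventually_ge_atTop 1] with x hx hx1
  rw [Real.norm_of_nonneg (by positivity), Real.norm_of_nonneg (Real.exp_pos x).le] at hx
  have h3 : K ≤ |K| + 1 := by have := le_abs_self K; linarith
  have h4 : 0 < |K| + 1 := by positivity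
  rw [div_mul_eq_mul_div, one_mul, le_div_iff₀ h4] at hx
  have h5 : 0 ≤ x ^ e := by positivity
  nlinarith

/-- **Assembly.** Fixed sets `V n` of at most `M` values each, of polynomial growth. -/
theorem assemble_gen (α : ℕ) (hα1 : 1 ≤ α) (M : ℕ) (V : ℕ → Finset ℤ) (hVc : ∀ n, (V n).card ≤ M)
    (K : ℕ) (hVb : ∀ n, ∀ v ∈ V n, |v| ≤ K * ((n : ℤ) + 1) ^ K) (e₁ e₂ e₃ : ℕ) (he₁ : 1 ≤ e₁) (he : e₂ ≤ e₃)
    (hsurv : ∃ C : ℝ, 0 < C ∧ ∃ y₀ : ℝ, ∀ y : ℝ, y₀ ≤ y → ∀ L : ℕ, y ≤ L → (L : ℝ) ≤ y * (Real.log y) ^ e₁ →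
      ∃ b : ℕ → ℕ, (((((range (L + 1)).biUnion V).filter (fun a => ∀ p : ℕ, p.Prime → (p : ℝ) ≤ y →
        ¬ (p : ℤ) ∣ (α : ℤ) * (b p : ℤ) + a)).card : ℕ) : ℝ) ≤
        C * L * (Real.log (Real.log y)) ^ e₃ /
          ((Real.log y) ^ e₁ * (Real.log (Real.log (Real.log y))) ^ e₂)) :
    ∃ c : ℝ, 0 < c ∧ ∃ X₀ : ℝ, ∀ X : ℝ, X₀ ≤ X → ∀ z : ℤ,
      ∃ m : ℤ, (z : ℝ) + X / 4 < m ∧ (m : ℝ) ≤ z + X ∧
        ∀ n : ℕ, (n : ℝ) ≤ c * (Real.log X * (Real.log (Real.log X)) ^ e₁ *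
          (Real.log (Real.log (Real.log (Real.log X)))) ^ e₂ /
            (Real.log (Real.log (Real.log X))) ^ e₃) →
        ∀ v ∈ V n, ¬ Prime ((α : ℤ) * m + v) := by
  obtain ⟨C, hC, y₀, hsurv⟩ := hsurv
  obtain ⟨c₀, hc₀, X₁, hass⟩ := Pool.Agent.H361R2.PA.assembleM 1
  obtain ⟨x₀, hhalf⟩ := ev_log_half
  set c₂ : ℝ := min 1 (5 * c₀ / C) with hc₂
  have hc₂0 : 0 < c₂ := lt_min one_pos (by positivity)
  have hc₂1 : c₂ ≤ 1 := min_le_left _ _
  have hc₂C : C * c₂ ≤ 5 * c₀ := by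
    have : c₂ ≤ 5 * c₀ / C := min_le_right _ _
    rwa [le_div_iff₀ hC, mul_comm] at this
  -- thresholds
  obtain ⟨x₁, hx₁⟩ := eventually_atTop.1 (ev_pow (2 * M + 1) e₁)
  obtain ⟨x₂, hx₂⟩ := eventually_atTop.1 (ev_pow (2 / c₂) e₃)
  obtain ⟨x₃, hx₃⟩ := eventually_atTop.1 (ev_exp_pow (K * 2 ^ K) (2 * K))
  have hlog1 := Real.tendsto_log_atTop
  have hl2 := hlog1.comp hlog1
  have hl3 := hlog1.comp hl2
  have hl4 := hlog1.comp hl3
  have hall := (((((hlog1.eventually_ge_atTop (max (max (20 * x₁) (max (20 * x₃) (20 * y₀)))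
      (max x₀ (max (Real.log α) 20)))).and
    (hl2.eventually_ge_atTop (max (max (2 * x₂) x₀) 20))).and
    (hl3.eventually_ge_atTop (max x₀ 20))).and (hl4.eventually_ge_atTop 20)).and
    (eventually_ge_atTop (max X₁ 1000)))
  obtain ⟨X₀, hX₀⟩ := eventually_atTop.1 hall
  refine ⟨c₂ / (20 * 2 ^ e₁ * 2 ^ e₂), by positivity, X₀, fun X hX z => ?_⟩
  obtain ⟨⟨⟨⟨g1, g2⟩, g3⟩, g4⟩, g5⟩ := hX₀ X hX
  simp only [Function.comp_apply] at g2 g3 g4
  set L1 := Real.log X with hL1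
  set L2 := Real.log L1 with hL2
  set L3 := Real.log L2 with hL3
  set L4 := Real.log L3 with hL4
  simp only [max_le_iff] at g1 g2 g3 g5
  obtain ⟨⟨g1a, g1a', g1b⟩, g1c, g1d, g1e⟩ := g1
  obtain ⟨⟨g2a, g2b⟩, g2c⟩ := g2
  obtain ⟨g3a, g3b⟩ := g3
  obtain ⟨g5a, g5b⟩ := g5
  set y := L1 / 10 with hy
  have hyX' : L1 = 10 * y := by rw [hy]; ring
  have hy1 : L1 / 20 ≤ y := by rw [hy]; linarith
  have hy2 : y ≤ L1 := by rw [hy]; linarith
  have hy0 : 0 < y := by linarith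
  have hyx1 : x₁ ≤ y := by linarith
  have hyx3 : x₃ ≤ y := by linarith
  have hyy0 : y₀ ≤ y := by linarith
  have hy_1 : 1 ≤ y := by linarith
  set ly := Real.log y with hly
  have hly1 : L2 / 2 ≤ ly := (hhalf L1 g1c).2 y hy1
  have hly2 : ly ≤ L2 := Real.log_le_log hy0 hy2
  have hly0 : 0 < ly := by linarith
  set lly := Real.log ly with hlly
  have hlly1 : L3 / 2 ≤ lly := (hhalf L2 g2b).2 ly (by linarith)
  have hlly2 : lly ≤ L3 := Real.log_le_log hly0 hly2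
  have hlly0 : 0 < lly := by linarith
  set llly := Real.log lly with hllly
  have hllly1 : L4 / 2 ≤ llly := (hhalf L3 g3a).2 lly (by linarith)
  have hllly2 : llly ≤ L4 := Real.log_le_log hlly0 hlly2
  have hllly0 : 0 < llly := by linarith
  have hllly_le : llly ≤ lly := (Real.log_le_sub_one_of_pos hlly0).trans (by linarith)
  have hP1 : (2 * M + 1) * ly ^ e₁ ≤ y := hx₁ y hyx1
  have hP2 : 2 / c₂ * lly ^ e₃ ≤ ly := hx₂ ly (by linarith)
  have hP3 : K * 2 ^ K * y ^ (2 * K) ≤ Real.exp y := hx₃ y hyx3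
  set W : ℝ := c₂ * y * ly ^ e₁ * llly ^ e₂ / lly ^ e₃ with hW
  have hW0 : 0 < W := by positivity
  set L : ℕ := ⌊W⌋₊ with hL
  have hLW : (L : ℝ) ≤ W := Nat.floor_le hW0.le
  have hly_1 : 1 ≤ ly := by linarith
  have hllly_1 : 1 ≤ llly := by linarith
  have hlly_1 : 1 ≤ lly := by linarith
  have hlyle : ly ≤ ly ^ e₁ := by
    calc ly = ly ^ 1 := (pow_one _).symm
      _ ≤ ly ^ e₁ := pow_le_pow_right₀ hly_1 he₁
  have hlye : ly ^ e₁ ≤ y := by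
    have h1 : 0 ≤ ly ^ e₁ := by positivity
    have h2 : (0 : ℝ) ≤ M := Nat.cast_nonneg _
    nlinarith
  -- (a) y ≤ L
  have hWy : 2 * y ≤ W := by
    rw [hW, le_div_iff₀ (by positivity)]
    have e1 : 2 * lly ^ e₃ ≤ c₂ * ly := by
      have := mul_le_mul_of_nonneg_left hP2 hc₂0.le
      calc 2 * lly ^ e₃ = c₂ * (2 / c₂ * lly ^ e₃) := by field_simp
        _ ≤ _ := this
    have e2 : (1 : ℝ) ≤ llly ^ e₂ := one_le_pow₀ hllly_1
    calc 2 * y * lly ^ e₃ = y * (2 * lly ^ e₃) := by ring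
      _ ≤ y * (c₂ * ly) := by gcongr
      _ ≤ y * (c₂ * ly ^ e₁) := by gcongr
      _ = c₂ * y * ly ^ e₁ * 1 := by ring
      _ ≤ c₂ * y * ly ^ e₁ * llly ^ e₂ := by gcongr
  have hyL : y ≤ L := by
    have := Nat.lt_floor_add_one W
    rw [← hL] at this
    linarith
  -- (b) L ≤ y * ly ^ e₁
  have hW_le : W ≤ y * ly ^ e₁ := by
    have e1 : W = c₂ * y * ly ^ e₁ * (llly ^ e₂ / lly ^ e₃) := by
      rw [hW]; field_simp
    rw [e1]
    have e2 : llly ^ e₂ / lly ^ e₃ ≤ 1 := by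
      rw [div_le_one (by positivity)]
      calc llly ^ e₂ ≤ lly ^ e₂ := pow_le_pow_left₀ hllly0.le hllly_le e₂
        _ ≤ lly ^ e₃ := pow_le_pow_right₀ hlly_1 he
    calc c₂ * y * ly ^ e₁ * (llly ^ e₂ / lly ^ e₃) ≤ 1 * y * ly ^ e₁ * 1 := by gcongr
      _ = _ := by ring
  have hL_le : (L : ℝ) ≤ y * ly ^ e₁ := hLW.trans hW_le
  have hL1' : (1 : ℝ) ≤ L := hy_1.trans hyL
  obtain ⟨b, hb⟩ := hsurv y hyy0 L hyL hL_le
  set A : Finset ℤ := (range (L + 1)).biUnion V with hA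
  have hAcard : (A.card : ℝ) ≤ L1 ^ 2 := by
    have h1 : A.card ≤ (L + 1) * M := by
      rw [hA]
      refine card_biUnion_le.trans ?_
      calc ∑ a ∈ range (L + 1), (V a).card ≤ ∑ a ∈ range (L + 1), M := sum_le_sum fun a _ => hVc a
        _ = (L + 1) * M := by rw [sum_const, card_range, smul_eq_mul]
    have h2 : (A.card : ℝ) ≤ ((L : ℝ) + 1) * M := by exact_mod_cast h1
    rw [hyX']
    have hMn : (0 : ℝ) ≤ M := Nat.cast_nonneg _
    have hlp : 0 ≤ ly ^ e₁ := by positivity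
    calc (A.card : ℝ) ≤ ((L : ℝ) + 1) * M := h2
      _ ≤ (2 * L) * M := by gcongr; linarith
      _ ≤ (2 * (y * ly ^ e₁)) * M := by gcongr
      _ = y * ((2 * M) * ly ^ e₁) := by ring
      _ ≤ y * y := by
        apply mul_le_mul_of_nonneg_left _ hy0.le
        linarith
      _ ≤ (10 * y) ^ 2 := by nlinarith
  have hAbd : ∀ a ∈ A, |(a : ℝ)| ≤ Real.exp (L1 ^ 1) := by
    intro a ha
    rw [hA, mem_biUnion] at ha
    obtain ⟨n, hn, ha⟩ := ha
    rw [mem_range] at hn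
    have h1 := hVb n a ha
    have h2 : |(a : ℝ)| ≤ K * ((n : ℝ) + 1) ^ K := by
      have h3 : ((|a| : ℤ) : ℝ) ≤ ((K * ((n : ℤ) + 1) ^ K : ℤ) : ℝ) := by exact_mod_cast h1
      push_cast at h3
      exact h3
    have h3 : (n : ℝ) ≤ L := by exact_mod_cast (by omega : n ≤ L)
    have h4 : (n : ℝ) + 1 ≤ 2 * y ^ 2 := by
      have h5 : (L : ℝ) ≤ y * y := by
        calc (L : ℝ) ≤ y * ly ^ e₁ := hL_le
          _ ≤ y * y := by gcongr
      have h6 : y * y = y ^ 2 := by ring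
      have h7 : (n : ℝ) + 1 ≤ 2 * L := by linarith
      linarith
    rw [pow_one]
    calc |(a : ℝ)| ≤ K * ((n : ℝ) + 1) ^ K := h2
      _ ≤ K * (2 * y ^ 2) ^ K := by gcongr
      _ = K * 2 ^ K * y ^ (2 * K) := by rw [mul_pow, ← pow_mul]; ring
      _ ≤ Real.exp y := hP3
      _ ≤ Real.exp L1 := Real.exp_le_exp.2 hy2
  have hAS : (((A.filter (fun a => ∀ p : ℕ, p.Prime → (p : ℝ) ≤ L1 / 10 →
      ¬ (p : ℤ) ∣ (α : ℤ) * (b p : ℤ) + a)).card : ℕ) : ℝ) ≤ c₀ * L1 := by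
    refine hb.trans ?_
    have h3 : C * L * lly ^ e₃ / (ly ^ e₁ * llly ^ e₂) ≤ C * c₂ * y := by
      calc C * L * lly ^ e₃ / (ly ^ e₁ * llly ^ e₂) ≤ C * W * lly ^ e₃ / (ly ^ e₁ * llly ^ e₂) := by
            gcongr
        _ = C * c₂ * y := by
            rw [hW]
            field_simp
    have h4 : C * c₂ * y ≤ 5 * c₀ * y := by gcongr
    refine h3.trans (h4.trans ?_)
    rw [hyX']
    nlinarith
  obtain ⟨m, hm1, hm2, _, hm4⟩ := hass X g5a α hα1 (by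
      rw [pow_one]; exact g1d) A hAcard hAbd b hAS z
  refine ⟨m, hm1, hm2, fun n hn v hv => ?_⟩
  apply hm4
  rw [hA, mem_biUnion]
  refine ⟨n, ?_, hv⟩
  rw [mem_range, Nat.lt_succ_iff, hL]
  apply Nat.le_floor
  refine hn.trans ?_
  have e1 : W = c₂ * (y * ly ^ e₁ * llly ^ e₂ / lly ^ e₃) := by
    rw [hW]; field_simp
  rw [e1]
  have e2 : c₂ / (20 * 2 ^ e₁ * 2 ^ e₂) * (L1 * L2 ^ e₁ * L4 ^ e₂ / L3 ^ e₃) =
      c₂ * ((L1 / 20) * (L2 / 2) ^ e₁ * (L4 / 2) ^ e₂ / L3 ^ e₃) := by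
    rw [div_pow, div_pow]
    field_simp
  rw [e2]
  have hL2' : 0 ≤ L2 / 2 := by linarith
  have hL4' : 0 ≤ L4 / 2 := by linarith
  have hL1'' : 0 ≤ L1 / 20 := by linarith
  gcongr

end Pool.Agent.N893.RK
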